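import Pool.Agent.K3h43.GEN.Stm
import Pool.Agent.K3h66.DSL.E
import Pool.Agent.K3h8.DSL.BrickA
import Pool.Agent.Y759.DS.Filt2

/-! Brick G4 (MP_ec2393_nt): the symbol of an element of depth one, coefficients in even weight. -/

set_option autoImplicit false

namespace Pool.Agent.K3h91.GEN

open Pool.Agent.H777R4.DM Pool.Agent.R241.DL Pool.Agent.K3h43.DSL Pool.Agent.K3h43.GEN
open Pool.Agent.K3h66.DSL (NS ev_eq)

lemma replicate_of_count {u : List (Fin 2)} (h : u.count 0 = 0) :
    u = List.replicate u.length 1 := by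
  rw [List.eq_replicate_iff]
  refine ⟨rfl, fun b hb => ?_⟩
  have h0 : b ≠ 0 := by
    rintro rfl
    exact (List.count_pos_iff.2 hb).ne' h
  omega

theorem t_SymOne : SymOne := by
  intro σ k hk hk2 hσ hN hne
  refine ⟨fun u hu => ?_, co σ (List.replicate k 1 ++ [0]), ?_, fun z0 z1 => ?_⟩
  · by_contra hcon
    have h0 : u.count 0 = 0 := by omega
    have h1 := replicate_of_count h0
    apply hu
    rw [h1]
    refine Pool.Agent.Y759.QS.ones_zero hσ _ ?_
    have := hN u hu
    omega
  · have h1 := Pool.Agent.Y759.QS.rev_of hσ (0 :: List.replicate k 1)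
    have h2 := Pool.Agent.Y759.QS.dual_one (N := k + 1) hσ (by omega)
    have e1 : (0 :: List.replicate k (1 : Fin 2)).reverse = List.replicate k 1 ++ [0] := by simp
    have e2 : wordX [k + 1 - 1] = List.replicate k 0 ++ [1] := by
      rw [Nat.add_sub_cancel]
      simp [wordX]
    rw [e1] at h1
    rw [e2, Nat.add_sub_cancel] at h2
    have e3 : ((-1 : ℚ) ^ ((0 :: List.replicate k (1 : Fin 2)).length + 1)) = 1 := by
      rw [List.length_cons, List.length_replicate]
      exact Even.neg_one_pow (by rw [add_assoc]; exact hk.add (by norm_num))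
    rw [h1, e3, one_mul, h2]
    exact hne
  · have hrel := (Pool.Agent.K3h8.DSL.t_LieStr σ hσ.mem).tr2 (z0 - z1) 0 z1
    rw [sub_add_cancel, zero_add] at hrel
    rw [hrel, ev_eq hN]
    simp only [NS]
    rw [Finset.sum_eq_single k]
    · rw [Finset.sum_eq_single 0]
      · rw [pow_zero, one_mul, mul_comm]
        rfl
      · intro b _ hb
        rw [zero_pow hb, zero_mul]
      · intro h
        exact absurd (Finset.mem_range.2 (by omega)) h
    · intro a _ ha
      rw [Finset.sum_eq_zero, mul_zero]
      intro b _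
      by_cases hb : b = 0
      · subst hb
        have h1 : co σ (blk [a, 0]) = 0 := by
          by_contra hcon
          have h2 := hN _ hcon
          simp [blk] at h2
          exact ha h2
        rw [h1, mul_zero]
      · rw [zero_pow hb, zero_mul]
    · intro h
      exact absurd (Finset.mem_range.2 (by omega)) h

open Polynomial in
theorem t_EvenCoeff : EvenCoeff := by
  intro τ p q c hp hq hN hev i j hj hij
  set N := p + q + 2 with hNdef
  -- the coefficients of the polynomial in `z2` for `z1 = 1`
  obtain ⟨s, hs⟩ : ∃ s : ℕ → ℚ, s = fun t => ∑ b ∈ Finset.range (N + 1), co τ (blk [0, b, t]) :=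
    ⟨_, rfl⟩
  have hsj : s j = co τ (0 :: (List.replicate i 1 ++ 0 :: List.replicate j 1)) := by
    rw [hs]
    simp only
    rw [Finset.sum_eq_single i]
    · rfl
    · intro b _ hb
      by_contra hcon
      have h2 := hN _ hcon
      simp [blk] at h2
      omega
    · intro h
      exact absurd (Finset.mem_range.2 (by omega)) h
  have hL : ∀ z : ℚ, ev [0, 1, -z] τ = ∑ t ∈ Finset.range (N + 1), (-z) ^ t * s t := by
    intro z
    rw [ev_eq hN]
    simp only [NS]
    rw [Finset.sum_eq_single 0]
    · rw [pow_zero, one_mul]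
      simp only [one_pow, one_mul]
      rw [Finset.sum_comm]
      refine Finset.sum_congr rfl fun t _ => ?_
      rw [hs, Finset.mul_sum]
    · intro b _ hb
      rw [zero_pow hb, zero_mul]
    · intro h
      exact absurd (Finset.mem_range.2 (by omega)) h
  have hR : ∀ z : ℚ, ev [0, 1, -z] τ = c * (z ^ q - (1 + z) ^ q + (1 + z) ^ p * (1 - z ^ q) +
      z ^ p * ((1 + z) ^ q - 1)) := by
    intro z
    rw [hev]
    congr 1
    unfold bsym
    simp only [map_add, map_mul, map_sub, map_pow, MvPolynomial.eval_X, Matrix.cons_val_zero,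
      Matrix.cons_val_one]
    have e1 : (0 : ℚ) - 1 = -1 := by norm_num
    have e2 : (1 : ℚ) - -z = 1 + z := by ring
    have e3 : (-1 : ℚ) + (1 + z) = z := by ring
    rw [e1, e2, e3, hp.neg_one_pow, hq.neg_one_pow]
    ring
  have hpoly : (∑ t ∈ Finset.range (N + 1), C ((-1) ^ t * s t) * X ^ t : ℚ[X]) =
      C c * (X ^ q - (1 + X) ^ q + (1 + X) ^ p * (1 - X ^ q) + X ^ p * ((1 + X) ^ q - 1)) := by
    refine Polynomial.funext fun z => ?_
    have h1 := (hL z).symm.trans (hR z)
    simp only [eval_finsetSum, eval_mul, eval_C, eval_pow, eval_X, eval_add, eval_sub, eval_one]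
    rw [← h1]
    refine Finset.sum_congr rfl fun t _ => ?_
    rw [neg_pow z t]
    ring
  have hcoef := congrArg (fun P : ℚ[X] => P.coeff j) hpoly
  rw [finsetSum_coeff] at hcoef
  rw [Finset.sum_eq_single j (fun b _ hb => by rw [coeff_C_mul_X_pow, if_neg hb.symm])
    (fun h => absurd (Finset.mem_range.2 (by omega)) h), coeff_C_mul_X_pow, if_pos rfl,
    hj.neg_one_pow, coeff_C_mul] at hcoef
  have hi : Odd i := by
    have h1 : Even (i + j) := by rw [hij]; exact hp.add hq
    rcases Nat.even_or_odd i with h | h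
    · exact absurd (h.add_odd hj) (by rw [Nat.not_odd_iff_even]; exact h1)
    · exact h
  have hjq : j ≠ q := fun h => by rw [h] at hj; exact (Nat.not_odd_iff_even.2 hq) hj
  have hjp : j ≠ p := fun h => by rw [h] at hj; exact (Nat.not_odd_iff_even.2 hp) hj
  have k1 : (((1 : ℚ[X]) + X) ^ p * (1 - X ^ q)).coeff j =
      (p.choose j : ℚ) - (p.choose i : ℚ) := by
    rw [mul_sub, mul_one, coeff_sub, coeff_mul_X_pow', coeff_one_add_X_pow]
    congr 1
    split_ifs with h
    · rw [coeff_one_add_X_pow]
      have : j - q ≤ p := by omega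
      rw [← Nat.choose_symm this]
      congr 2
      omega
    · rw [Nat.choose_eq_zero_of_lt (by omega)]
      simp
  have k2 : (X ^ p * (((1 : ℚ[X]) + X) ^ q - 1)).coeff j = (q.choose i : ℚ) := by
    rw [mul_sub, mul_one, coeff_sub, coeff_X_pow_mul', coeff_X_pow, if_neg hjp, sub_zero]
    split_ifs with h
    · rw [coeff_one_add_X_pow]
      have : j - p ≤ q := by omega
      rw [← Nat.choose_symm this]
      congr 2
      omega
    · rw [Nat.choose_eq_zero_of_lt (by omega)]
      simp
  rw [coeff_add, coeff_add, coeff_sub, coeff_X_pow, if_neg hjq, coeff_one_add_X_pow, k1, k2] at hcoef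
  rw [← hsj]
  linear_combination -hcoef

end Pool.Agent.K3h91.GEN
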